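import Pool.Agent.W229.V.Stmts

set_option autoImplicit false

/-! # The height of a projective point with integral coordinates -/

namespace Pool.Agent.W313.Voj

open Module Height NumberField Pool.Agent.W229.V
open scoped LinearAlgebra.Projectivization

theorem finprod_le_one' {α : Type*} (f : α → ℝ) (h0 : ∀ a, 0 ≤ f a) (h1 : ∀ a, f a ≤ 1) :
    0 ≤ ∏ᶠ a, f a ∧ ∏ᶠ a, f a ≤ 1 := by
  refine finprod_induction (fun x : ℝ => 0 ≤ x ∧ x ≤ 1) ⟨zero_le_one, le_rfl⟩ ?_ fun a => ⟨h0 a, h1 a⟩
  rintro x y ⟨hx0, hx1⟩ ⟨hy0, hy1⟩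
  exact ⟨mul_nonneg hx0 hy0, mul_le_one₀ hx1 hy0 hy1⟩

theorem finitePlace_le_one {K : Type*} [Field K] [NumberField K] (v : FinitePlace K) (x : K)
    (hx : IsIntegral ℤ x) : v x ≤ 1 := by
  have h := FinitePlace.norm_le_one K v.maximalIdeal (⟨x, hx⟩ : 𝓞 K)
  rw [← FinitePlace.norm_embedding_eq v x]
  exact h

theorem mulHeight_le {K : Type*} [Field K] [NumberField K] {N : ℕ} (y : Fin (N + 1) → K)
    (hy : y ≠ 0) (hint : ∀ i, IsIntegral ℤ (y i)) (R : ℝ) (hR : 1 ≤ R)
    (hb : ∀ (φ : K →+* ℂ) i, ‖φ (y i)‖ ≤ R) : mulHeight y ≤ R ^ finrank ℚ K := by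
  rw [NumberField.mulHeight_eq hy]
  have h1 : ∏ v : InfinitePlace K, (⨆ i, v (y i)) ^ v.mult ≤ R ^ finrank ℚ K := by
    rw [← InfinitePlace.sum_mult_eq, ← Finset.prod_pow_eq_pow_sum]
    refine Finset.prod_le_prod (fun v _ => ?_) (fun v _ => ?_)
    · exact pow_nonneg (Real.iSup_nonneg fun i => apply_nonneg _ _) _
    · apply pow_le_pow_left₀ (Real.iSup_nonneg fun i => apply_nonneg _ _)
      refine ciSup_le fun i => ?_
      rw [← InfinitePlace.norm_embedding_eq]
      exact hb _ _
  have h2 := finprod_le_one' (fun v : FinitePlace K => ⨆ i, v (y i))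
    (fun v => Real.iSup_nonneg fun i => apply_nonneg _ _)
    (fun v => ciSup_le fun i => finitePlace_le_one v _ (hint i))
  calc _ ≤ R ^ finrank ℚ K * 1 := mul_le_mul h1 h2.2 h2.1 (by positivity)
    _ = _ := mul_one _

theorem taskC1 : TaskC1 := by
  intro k _ _ N x hx j c hxj hc hint R hR hb
  set P : ℙ (AlgebraicClosure k) (Fin (N + 1) → AlgebraicClosure k) :=
    Projectivization.mk (AlgebraicClosure k) x hx with hP
  obtain ⟨u, hu⟩ := Projectivization.exists_smul_eq_mk_rep (AlgebraicClosure k) x hx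
  have hrep : ∀ i, P.rep i = u * x i := fun i => by
    rw [hP, ← hu]; rfl
  have hu0 : (u : AlgebraicClosure k) ≠ 0 := u.ne_zero
  have hquot : ∀ i l, P.rep i / P.rep l = x i / x l := fun i l => by
    rw [hrep, hrep, mul_div_mul_left _ _ hu0]
  have hxj0 : x j ≠ 0 := by
    rw [hxj]
    exact (map_ne_zero_iff _ (algebraMap k (AlgebraicClosure k)).injective).2 hc
  have hmem : ∀ i, x i ∈ ptField P := by
    intro i
    have h1 : x i = algebraMap k (AlgebraicClosure k) c * (P.rep i / P.rep j) := by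
      rw [hquot, ← hxj, mul_div_cancel₀ _ hxj0]
    rw [h1]
    exact (ptField P).mul_mem ((ptField P).algebraMap_mem c)
      (IntermediateField.subset_adjoin k _ ⟨(i, j), rfl⟩)
  let y : Fin (N + 1) → ptField P := fun i => ⟨x i, hmem i⟩
  have hy : y ≠ 0 := fun h => hxj0 (by
    have := congrArg (fun z : ptField P => (z : AlgebraicClosure k)) (congrFun h j)
    exact this)
  set j0 := (Function.ne_iff.mp P.rep_nonzero).choose with hj0
  have hj0' : P.rep j0 ≠ 0 := (Function.ne_iff.mp P.rep_nonzero).choose_spec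
  have hxj0' : x j0 ≠ 0 := by
    intro h
    apply hj0'
    rw [hrep, h, mul_zero]
  have hyj0 : y j0 ≠ 0 := fun h => hxj0' (congrArg (fun z : ptField P => (z : AlgebraicClosure k)) h)
  have hcoord : coord P = (y j0)⁻¹ • y := by
    funext i
    apply Subtype.ext
    change P.rep i / P.rep j0 = (x j0)⁻¹ * x i
    rw [hquot, div_eq_inv_mul]
  have hlog : logHeight (coord P) ≤ finrank ℚ (ptField P) * Real.log R := by
    rw [hcoord, logHeight_smul_eq_logHeight _ (inv_ne_zero hyj0), logHeight_eq_log_mulHeight,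
      ← Real.log_pow]
    apply Real.log_le_log (mulHeight_pos _)
    refine mulHeight_le y hy (fun i => ?_) R hR (fun φ i => ?_)
    · have h1 := hint i
      rw [show x i = algebraMap (ptField P) (AlgebraicClosure k) (y i) from rfl] at h1
      exact (isIntegral_algebraMap_iff (algebraMap (ptField P) (AlgebraicClosure k)).injective).1 h1
    · have h1 := hb (ComplexEmbedding.lift (AlgebraicClosure k) φ) i
      rw [show x i = algebraMap (ptField P) (AlgebraicClosure k) (y i) from rfl,
        ComplexEmbedding.lift_algebraMap_apply] at h1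
      exact h1
  have hfin : finrank ℚ (ptField P) = finrank ℚ k * deg P := (finrank_mul_finrank ℚ k (ptField P)).symm
  have hdeg : 0 < deg P := finrank_pos
  have hdeg' : (0 : ℝ) < deg P := by exact_mod_cast hdeg
  unfold ht
  rw [div_le_iff₀ hdeg']
  refine hlog.trans (le_of_eq ?_)
  rw [hfin]
  push_cast
  ring

end Pool.Agent.W313.Voj
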