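import Pool.Agent.W229.V.Stmts

set_option autoImplicit false

/-! # Many algebraic integers of given degree with small conjugates -/

namespace Pool.Agent.W313.Voj

open Polynomial Pool.Agent.W229.V

/-- the coefficients -/
def cf (i a : ℕ) : ℤ := if i = 0 then 4 * (a : ℤ) + 2 else 2 * (a : ℤ)

theorem cf_inj (i a b : ℕ) (h : cf i a = cf i b) : a = b := by
  unfold cf at h
  split_ifs at h <;> omega

theorem cf_even (i a : ℕ) : (2 : ℤ) ∣ cf i a := by
  unfold cf
  split_ifs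
  · exact ⟨2 * (a : ℤ) + 1, by ring⟩
  · exact ⟨a, rfl⟩

theorem cf_nonneg (i a : ℕ) : 0 ≤ cf i a := by
  unfold cf
  split_ifs <;> positivity

theorem cf_le (i a m : ℕ) (h : a < m) : cf i a ≤ 4 * (m : ℤ) := by
  unfold cf
  split_ifs <;> omega

/-- the polynomial -/
noncomputable def fp (r : ℕ) (a : Fin r → ℕ) : ℤ[X] :=
  X ^ r + ∑ i : Fin r, C (cf i (a i)) * X ^ (i : ℕ)

theorem sum_degree (r : ℕ) (a : Fin r → ℕ) :
    degree (∑ i : Fin r, C (cf i (a i)) * X ^ (i : ℕ)) < r :=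
  degree_sum_fin_lt _

theorem fp_monic (r : ℕ) (a : Fin r → ℕ) : (fp r a).Monic :=
  monic_X_pow_add (sum_degree r a)

theorem fp_natDegree (r : ℕ) (a : Fin r → ℕ) : (fp r a).natDegree = r := by
  unfold fp
  rw [add_comm, natDegree_add_eq_right_of_degree_lt, natDegree_X_pow]
  rw [degree_X_pow]
  exact sum_degree r a

theorem fp_coeff (r : ℕ) (a : Fin r → ℕ) (i : Fin r) : (fp r a).coeff i = cf i (a i) := by
  unfold fp
  rw [coeff_add, coeff_X_pow, if_neg i.2.ne, zero_add, finsetSum_coeff]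
  rw [Finset.sum_eq_single i]
  · simp
  · intro j _ hj
    rw [coeff_C_mul, coeff_X_pow, if_neg, mul_zero]
    intro h
    exact hj (Fin.ext h.symm)
  · simp

theorem fp_eisenstein (r : ℕ) (hr : 1 ≤ r) (a : Fin r → ℕ) :
    (fp r a).IsEisensteinAt (Ideal.span {(2 : ℤ)}) where
  leading := by
    rw [(fp_monic r a).leadingCoeff, Ideal.mem_span_singleton]
    decide
  mem := by
    intro n hn
    rw [fp_natDegree] at hn
    rw [fp_coeff r a ⟨n, hn⟩, Ideal.mem_span_singleton]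
    exact cf_even _ _
  notMem := by
    have h0 : 0 < r := hr
    rw [fp_coeff r a ⟨0, h0⟩, Ideal.span_singleton_pow, Ideal.mem_span_singleton]
    simp only [cf]
    rintro ⟨k, hk⟩
    simp only [↓reduceIte] at hk
    omega

theorem fp_irreducible (r : ℕ) (hr : 1 ≤ r) (a : Fin r → ℕ) : Irreducible (fp r a) := by
  refine (fp_eisenstein r hr a).irreducible ?_ (fp_monic r a).isPrimitive ?_
  · rw [Ideal.span_singleton_prime (by norm_num)]
    exact Int.prime_two
  · rw [fp_natDegree]; exact hr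

theorem root_bound (r μ : ℕ) (hr : 1 ≤ r) (hμ : 1 ≤ μ) (a : Fin r → ℕ)
    (ha : ∀ i, a i < μ ^ (r - i)) (z : ℂ)
    (hz : z ^ r + ∑ i : Fin r, (cf i (a i) : ℂ) * z ^ (i : ℕ) = 0) : ‖z‖ ≤ 8 * μ := by
  by_contra hcon
  push Not at hcon
  set t : ℝ := ‖z‖ with ht
  have hμ' : (1 : ℝ) ≤ μ := by exact_mod_cast hμ
  have htpos : 0 < t := lt_trans (by positivity) hcon
  have h1 : t ^ r ≤ ∑ i : Fin r, (cf i (a i) : ℝ) * t ^ (i : ℕ) := by
    have h2 : z ^ r = - ∑ i : Fin r, (cf i (a i) : ℂ) * z ^ (i : ℕ) := by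
      linear_combination hz
    calc t ^ r = ‖z ^ r‖ := by rw [norm_pow]
      _ = ‖∑ i : Fin r, (cf i (a i) : ℂ) * z ^ (i : ℕ)‖ := by rw [h2, norm_neg]
      _ ≤ ∑ i : Fin r, ‖(cf i (a i) : ℂ) * z ^ (i : ℕ)‖ := norm_sum_le _ _
      _ = ∑ i : Fin r, (cf i (a i) : ℝ) * t ^ (i : ℕ) := by
          refine Finset.sum_congr rfl fun i _ => ?_
          rw [norm_mul, norm_pow, Complex.norm_intCast]
          have := cf_nonneg i (a i)
          rw [abs_of_nonneg (by exact_mod_cast this)]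
  have h3 : ∀ i : Fin r, (cf i (a i) : ℝ) * t ^ (i : ℕ) ≤ (t / 2) * ((t ^ (i : ℕ)) * (t / 2) ^ (r - 1 - i)) := by
    intro i
    have hc : (cf i (a i) : ℝ) ≤ 4 * (μ : ℝ) ^ (r - (i : ℕ)) := by
      have := cf_le i (a i) _ (ha i)
      exact_mod_cast this
    have hexp : r - (i : ℕ) = (r - 1 - i) + 1 := by have := i.2; omega
    have h4 : 4 * (μ : ℝ) ^ (r - (i : ℕ)) ≤ (4 * μ) ^ (r - (i : ℕ)) := by
      rw [mul_pow]
      apply mul_le_mul_of_nonneg_right _ (by positivity)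
      rw [hexp]
      calc (4 : ℝ) = 4 ^ 1 := by norm_num
        _ ≤ 4 ^ (r - 1 - i + 1) := pow_le_pow_right₀ (by norm_num) (by omega)
    have h5 : (4 * (μ : ℝ)) ^ (r - (i : ℕ)) ≤ (t / 2) ^ (r - (i : ℕ)) := by
      apply pow_le_pow_left₀ (by positivity)
      linarith
    calc (cf i (a i) : ℝ) * t ^ (i : ℕ) ≤ (t / 2) ^ (r - (i : ℕ)) * t ^ (i : ℕ) :=
          mul_le_mul_of_nonneg_right (hc.trans (h4.trans h5)) (by positivity)
      _ = _ := by rw [hexp, pow_succ]; ring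
  have h6 : ∑ i : Fin r, (t / 2) * ((t ^ (i : ℕ)) * (t / 2) ^ (r - 1 - i)) = t ^ r - (t / 2) ^ r := by
    rw [← Finset.mul_sum, Fin.sum_univ_eq_sum_range (fun i => t ^ i * (t / 2) ^ (r - 1 - i)) r]
    have := geom_sum₂_mul t (t / 2) r
    rw [← this]
    ring
  have h7 : t ^ r ≤ t ^ r - (t / 2) ^ r := h1.trans ((Finset.sum_le_sum fun i _ => h3 i).trans h6.le)
  have h8 : 0 < (t / 2) ^ r := by positivity
  linarith

theorem sum_exp (r : ℕ) : ∑ i : Fin r, (r - (i : ℕ)) = r * (r + 1) / 2 := by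
  rw [Fin.sum_univ_eq_sum_range (fun i => r - i) r]
  have h1 : ∑ i ∈ Finset.range r, (r - i) = ∑ i ∈ Finset.range r, (i + 1) := by
    rw [← Finset.sum_range_reflect]
    refine Finset.sum_congr rfl fun i hi => ?_
    rw [Finset.mem_range] at hi
    omega
  rw [h1]
  have h2 := Finset.sum_range_succ' (fun i => i) r
  have h3 := Finset.sum_range_id_mul_two (r + 1)
  simp only [add_zero] at h2
  rw [← h2]
  simp only [Nat.add_sub_cancel] at h3
  rw [Nat.eq_div_iff_mul_eq_left (by norm_num) ⟨_, by rw [mul_comm] at h3; rw [mul_comm r]; exact h3.symm⟩]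
  rw [h3]; ring

theorem taskC3 : TaskC3 := by
  intro Ω _ _ _ r μ hr hμ
  have hroot : ∀ a : (∀ i : Fin r, Fin (μ ^ (r - (i : ℕ)))), ∃ ξ : Ω,
      aeval ξ (fp r fun i => (a i : ℕ)) = 0 := by
    intro a
    have hd : (fp r fun i => (a i : ℕ)).degree ≠ 0 := by
      rw [degree_eq_natDegree (fp_monic _ _).ne_zero, fp_natDegree]
      exact_mod_cast (by omega : r ≠ 0)
    have hmap : ((fp r fun i => (a i : ℕ)).map (algebraMap ℤ Ω)).degree ≠ 0 := by
      rwa [(fp_monic _ _).degree_map]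
    obtain ⟨ξ, hξ⟩ := IsAlgClosed.exists_root _ hmap
    exact ⟨ξ, by rwa [IsRoot.def, eval_map_algebraMap] at hξ⟩
  choose g hg using hroot
  have hmin : ∀ a, minpoly ℚ (g a) = (fp r fun i => (a i : ℕ)).map (algebraMap ℤ ℚ) := by
    intro a
    symm
    apply minpoly.eq_of_irreducible_of_monic
    · exact ((fp_monic _ _).irreducible_iff_irreducible_map_fraction_map).1 (fp_irreducible r hr _)
    · rw [aeval_map_algebraMap]; exact hg a
    · exact (fp_monic _ _).map _
  have hinj : Function.Injective g := by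
    intro a b hab
    have h1 : (fp r fun i => (a i : ℕ)).map (algebraMap ℤ ℚ) =
        (fp r fun i => (b i : ℕ)).map (algebraMap ℤ ℚ) := by
      rw [← hmin a, ← hmin b, hab]
    have h2 := Polynomial.map_injective _ (algebraMap ℤ ℚ).injective_int h1
    funext i
    apply Fin.ext
    have h3 := congrArg (fun p => p.coeff (i : ℕ)) h2
    simp only [fp_coeff] at h3
    exact cf_inj _ _ _ h3
  classical
  refine ⟨Finset.univ.map ⟨g, hinj⟩, ?_, ?_⟩
  · rw [Finset.card_map, Finset.card_univ, Fintype.card_pi]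
    simp only [Fintype.card_fin]
    rw [Finset.prod_pow_eq_pow_sum, sum_exp]
  · intro ξ hξ
    rw [Finset.mem_map] at hξ
    obtain ⟨a, -, rfl⟩ := hξ
    refine ⟨⟨_, fp_monic _ _, hg a⟩, ?_, ?_⟩
    · change (minpoly ℚ (g a)).natDegree = r
      rw [hmin, (fp_monic _ _).natDegree_map, fp_natDegree]
    · intro σ
      apply root_bound r μ hr hμ (fun i => (a i : ℕ)) (fun i => (a i).2)
      have h1 := congrArg σ (hg a)
      rw [map_zero] at h1
      rw [← h1]
      simp only [fp, map_add, map_pow, map_sum, map_mul, aeval_X, aeval_C]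
      simp
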